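import Pool.Agent.helper83.GR.Spec
import Pool.Agent.helper65.DI.D1

/-!
Project gr (MP_baa4d7_al), module CLA: sums over classes of radical chains.
-/

set_option autoImplicit false

namespace Pool.Agent.GR

open Pool.Agent.helper58.DC Pool.Agent.DI

theorem CLA (hNM : NM_stmt) (hSN : SN_stmt) : CLA_stmt := by
  classical
  intro G _ _ p F0 hF0
  let F : {C : Finset (Subgroup G) // IsRadical p C} → ℤ := fun C =>
    (-1) ^ (C.1.card + 1) * ((Nat.card (nrm C.1) : ℤ) * F0 C.1)
  have e1 : ∑ᶠ C ∈ {C : Finset (Subgroup G) | IsRadical p C},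
      (-1) ^ (C.card + 1) * ((Nat.card (nrm C) : ℤ) * F0 C) = ∑ᶠ C, F C :=
    (finsum_set_coe_eq_finsum_mem {C : Finset (Subgroup G) | IsRadical p C}
      (f := fun C => (-1) ^ (C.card + 1) * ((Nat.card (nrm C) : ℤ) * F0 C))).symm
  rw [e1]
  have : Fintype {C : Finset (Subgroup G) // IsRadical p C} := Fintype.ofFinite _
  have : Fintype (Quot (chainRel (G := G) p)) := Fintype.ofFinite _
  rw [finsum_eq_sum_of_fintype F, ← Fintype.sum_fiberwise (Quot.mk (chainRel (G := G) p)) F,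
    finsum_eq_sum_of_fintype, Finset.mul_sum]
  refine Finset.sum_congr rfl fun c _ => ?_
  -- the function is constant on the fibre
  have e2 : ∀ C : {C : {C : Finset (Subgroup G) // IsRadical p C} //
      Quot.mk (chainRel (G := G) p) C = c}, F C.1 = F c.out := by
    rintro ⟨C, hC⟩
    obtain ⟨g, hg⟩ := Pool.Agent.helper48.DC.CL1_rel_of_mk hNM p c.out C
      ((Quot.out_eq c).trans hC.symm)
    show (-1) ^ (C.1.card + 1) * ((Nat.card (nrm C.1) : ℤ) * F0 C.1) =
      (-1) ^ (c.out.1.card + 1) * ((Nat.card (nrm c.out.1) : ℤ) * F0 c.out.1)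
    rw [← hg, hF0 g c.out.1 c.out.2, (hNM G (MulAut.conj g) c.out.1).2.2.1,
      (hNM G (MulAut.conj g) c.out.1).2.2.2.1]
    have h5 : Nat.card (Subgroup.map (MulAut.conj g).toMonoidHom (nrm c.out.1)) =
        Nat.card (nrm c.out.1) :=
      (Nat.card_congr ((nrm c.out.1).equivMapOfInjective _ (MulAut.conj g).injective).toEquiv).symm
    rw [h5]
  rw [Finset.sum_congr rfl fun C _ => e2 C, Finset.sum_const, Finset.card_univ, nsmul_eq_mul]
  -- the size of the fibre
  have e3 : Fintype.card {C : {C : Finset (Subgroup G) // IsRadical p C} //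
      Quot.mk (chainRel (G := G) p) C = c} =
      ({D : Finset (Subgroup G) | ∃ g : G, chainMap (MulAut.conj g) c.out.1 = D}).ncard := by
    rw [← Nat.card_eq_fintype_card]
    refine Nat.card_congr ⟨fun C => ⟨C.1.1, ?_⟩, fun D => ⟨⟨D.1, ?_⟩, ?_⟩, fun _ => rfl,
      fun _ => rfl⟩
    · exact Pool.Agent.helper48.DC.CL1_rel_of_mk hNM p c.out C.1
        ((Quot.out_eq c).trans C.2.symm)
    · obtain ⟨g, hg⟩ := D.2
      show IsRadical p D.1
      rw [← hg]
      exact (hNM G (MulAut.conj g) c.out.1).2.2.2.2.2.2 p c.out.2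
    · obtain ⟨g, hg⟩ := D.2
      exact Eq.trans (Quot.sound (r := chainRel (G := G) p) (a := c.out) ⟨g, hg⟩).symm
        (Quot.out_eq c)
  rw [e3]
  have e4 := D1_card hNM hSN c.out.1 c.out.2.chain
  have e5 : c.out.1.card ≠ 0 := by
    obtain ⟨P₀, hP, _⟩ := c.out.2.radical
    exact (Finset.card_pos.2 ⟨P₀, hP⟩).ne'
  obtain ⟨m, hm⟩ := Nat.exists_eq_succ_of_ne_zero e5
  show _ = _ * ((-1) ^ (c.out.1.card + 1) * ((Nat.card (nrm c.out.1) : ℤ) * F0 c.out.1))
  rw [← e4, hm]
  push_cast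
  simp only [Nat.succ_eq_add_one]
  ring

end Pool.Agent.GR
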